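import Pool.Agent.H.MP_295da9_pr.C

namespace Pool.Agent.Results.MP_295da9_pr.Main

open Set Pool.Agent.H.MP_295da9_pr

theorem result : ∃ (K : Geometry.SimplicialComplex ℝ (ℝ × ℝ)) (G : SimpleGraph ℕ) (P : ℕ → ℝ × ℝ),
    K.space = univ ∧
    (∀ B : Set (ℝ × ℝ), Bornology.IsBounded B →
      {s ∈ K.faces | (convexHull ℝ (s : Set (ℝ × ℝ)) ∩ B).Nonempty}.Finite) ∧
    Function.Injective P ∧ range P = K.vertices ∧
    (∀ u v, G.Adj u v ↔ u ≠ v ∧ {P u, P v} ∈ K.faces) ∧ G.Connected ∧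
    (∃ c C : ℝ, 0 < c ∧ c < C ∧ ∀ n : ℕ, 1 ≤ n → ∀ v, {u | G.dist v u ≤ n}.Finite ∧
      c * n ^ 3 < {u | G.dist v u ≤ n}.ncard ∧ ({u | G.dist v u ≤ n}.ncard : ℝ) < C * n ^ 3) ∧
    ∀ p : unitInterval, p < 1 → ∀ v, ProbabilityTheory.setBernoulli univ p
      {ω | {u | ∃ w : G.Walk v u, ∀ x ∈ w.support, x ∈ ω}.Infinite} = 0 :=
  ⟨K, G, P, Kspace, fun _ => Kloc, Pinj', Kvert, fun _ _ => Iff.rfl, conn,
    ⟨_, _, by norm_num, by norm_num, growth⟩, fun _ => perc⟩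

end Pool.Agent.Results.MP_295da9_pr.Main
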